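import Mathlib
import Pool.Agent.H8.Card

namespace Pool.Agent.Results.MP_7b7e09_gt.NonP

open Set Filter TopologicalSpace Pool.Agent.H8.Card
open scoped Cardinal

/-- open ω-covers -/
def Omega {X : Type} [TopologicalSpace X] (U : Set (Set X)) : Prop :=
  (∀ u ∈ U, IsOpen u) ∧ ⋃₀ U = univ ∧ univ ∉ U ∧ ∀ F : Set X, F.Finite → ∃ u ∈ U, F ⊆ u

/-- the polarized partition property P -/
def Pol (X : Type) [TopologicalSpace X] : Prop :=
  ∀ k : ℕ, 0 < k → ∀ U₁ U₂ : Set (Set X), Omega U₁ → Omega U₂ → ∀ f : U₁ → U₂ → Fin k,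
    ∃ V₁ ⊆ U₁, ∃ V₂ ⊆ U₂, Omega V₁ ∧ Omega V₂ ∧
      {c | ∃ u v, u.1 ∈ V₁ ∧ v.1 ∈ V₂ ∧ f u v = c}.ncard < 3

/-- S₁(Ω, Ω) -/
def S1 (X : Type) [TopologicalSpace X] : Prop :=
  ∀ U : ℕ → Set (Set X), (∀ n, Omega (U n)) →
    ∃ u : ℕ → Set X, (∀ n, u n ∈ U n) ∧ Omega (range u)

noncomputable def nonPol : Cardinal := sInf {c | ∃ X : Set ℝ, ¬ Pol X ∧ #X = c}

noncomputable def nonS1 : Cardinal := sInf {c | ∃ X : Set ℝ, ¬ S1 X ∧ #X = c}

section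
variable {X : Type} [TopologicalSpace X]

theorem omega_of {U V : Set (Set X)} (hU : Omega U) (h : V ⊆ U)
    (hF : ∀ F : Set X, F.Finite → ∃ u ∈ V, F ⊆ u) : Omega V := by
  refine ⟨fun u hu => hU.1 u (h hu), eq_univ_of_forall fun x => ?_, fun hu => hU.2.2.1 (h hu), hF⟩
  obtain ⟨u, hu, hx⟩ := hF {x} (finite_singleton x)
  exact ⟨u, hu, hx rfl⟩

theorem count [SecondCountableTopology X] {U : Set (Set X)} (hU : Omega U) :
    ∃ e : ℕ → U, ∃ W : Ultrafilter ℕ, (∀ F : Finset X, {n | ↑F ⊆ (e n).1} ∈ W) ∧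
      ∀ a, {n | a ≤ n} ∈ W := by
  classical
  obtain ⟨u0, hu0, -⟩ := hU.2.2.2 ∅ finite_empty
  have h1 : ∀ s : Set (Set X), ∃ c : U, (∃ u ∈ U, ⋃₀ s ⊆ u) → ⋃₀ s ⊆ c.1 := by
    intro s
    by_cases h : ∃ u ∈ U, ⋃₀ s ⊆ u
    · obtain ⟨u, hu, h⟩ := h
      exact ⟨⟨u, hu⟩, fun _ => h⟩
    · exact ⟨⟨u0, hu0⟩, fun h' => absurd h' h⟩
  choose c hc using h1
  obtain ⟨t, ht⟩ := (countable_setOf_finite_subset (countable_countableBasis X)).exists_eq_range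
    ⟨∅, finite_empty, empty_subset _⟩
  have he : ∀ F : Finset X, {n | ↑F ⊆ (c (t n)).1}.Nonempty := by
    intro F
    obtain ⟨u, hu, hF⟩ := hU.2.2.2 F F.finite_toSet
    have h2 : ∀ x : F, ∃ b ∈ countableBasis X, x.1 ∈ b ∧ b ⊆ u := fun x =>
      (isBasis_countableBasis X).exists_subset_of_mem_open (hF x.2) (hU.1 u hu)
    choose b hb1 hb2 hb3 using h2
    obtain ⟨n, hn⟩ : range b ∈ range t := by
      rw [← ht]
      exact ⟨finite_range b, by rintro _ ⟨x, rfl⟩; exact hb1 x⟩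
    refine ⟨n, fun x hx => hc (t n) ⟨u, hu, ?_⟩ ?_⟩
    · rw [hn]
      rintro y ⟨_, ⟨z, rfl⟩, hy⟩
      exact hb3 z hy
    · rw [hn]
      exact ⟨_, ⟨⟨x, hx⟩, rfl⟩, hb2 ⟨x, hx⟩⟩
  haveI : (⨅ F : Finset X, 𝓟 {n | ↑F ⊆ (c (t n)).1}).NeBot := by
    refine iInf_neBot_of_directed (fun F G => ⟨F ∪ G, ?_, ?_⟩) fun F => (he F).principal_neBot
    · exact principal_mono.2 fun n hn x hx => hn (by simp [Finset.mem_coe.1 hx])
    · exact principal_mono.2 fun n hn x hx => hn (by simp [Finset.mem_coe.1 hx])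
  have hW : ∀ F : Finset X, {n | ↑F ⊆ (c (t n)).1} ∈
      Ultrafilter.of (⨅ F : Finset X, 𝓟 {n | ↑F ⊆ (c (t n)).1}) := fun F =>
    Ultrafilter.of_le _ (mem_iInf_of_mem F (mem_principal_self _))
  refine ⟨fun n => c (t n), _, hW, fun a => ?_⟩
  have h3 : ∀ n, ∃ x, x ∉ (c (t n)).1 := fun n => by
    by_contra h
    push Not at h
    exact hU.2.2.1 (eq_univ_of_forall h ▸ (c (t n)).2)
  choose x hx using h3
  refine mem_of_superset (hW ((Finset.range a).image x)) fun n hn => ?_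
  by_contra h
  exact hx n (hn (by simpa using ⟨n, not_le.1 h, rfl⟩))

theorem lim {k : ℕ} (W : Ultrafilter ℕ) (g : ℕ → Fin k) : ∃ c, {n | g n = c} ∈ W := by
  obtain ⟨c, hc⟩ := (W.map g).eq_pure_of_finite
  refine ⟨c, ?_⟩
  have : {c} ∈ W.map g := by rw [hc]; simp
  exact this

theorem small [SecondCountableTopology X] (h : #X < min dNum rNum) : Pol X := by
  classical
  intro k _ U₁ U₂ h₁ h₂ f
  obtain ⟨e₁, W₁, a₁, b₁⟩ := count h₁
  obtain ⟨e₂, W₂, a₂, b₂⟩ := count h₂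
  choose c₁ hc₁ using fun n => lim W₂ fun m => f (e₁ n) (e₂ m)
  choose c₂ hc₂ using fun m => lim W₁ fun n => f (e₁ n) (e₂ m)
  obtain ⟨γ₁, g₁⟩ := lim W₁ c₁
  obtain ⟨γ₂, g₂⟩ := lim W₂ c₂
  let S₁ : ℕ → Set ℕ := fun a => {n | c₁ n = γ₁ ∧ ∀ m < a, f (e₁ n) (e₂ m) = c₂ m}
  let S₂ : ℕ → Set ℕ := fun a => {m | c₂ m = γ₂ ∧ ∀ n < a, f (e₁ n) (e₂ m) = c₁ n}
  have s₁ : ∀ a, S₁ a ∈ W₁ := fun a => inter_mem g₁ (mem_of_superset
    ((biInter_mem (finite_Iio a)).2 fun m _ => hc₂ m) fun n hn m hm => mem_iInter₂.1 hn m hm)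
  have s₂ : ∀ a, S₂ a ∈ W₂ := fun a => inter_mem g₂ (mem_of_superset
    ((biInter_mem (finite_Iio a)).2 fun m _ => hc₁ m) fun n hn m hm => mem_iInter₂.1 hn m hm)
  choose p₁ hp₁ using fun (F : Finset X) a =>
    Ultrafilter.nonempty_of_mem (inter_mem (inter_mem (s₁ a) (a₁ F)) (b₁ a))
  choose p₂ hp₂ using fun (F : Finset X) a =>
    Ultrafilter.nonempty_of_mem (inter_mem (inter_mem (s₂ a) (a₂ F)) (b₂ a))
  have hcard : #(Finset X) < min dNum rNum := by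
    cases finite_or_infinite X
    · exact lt_trans (Cardinal.lt_aleph0_of_finite _) (lt_min aleph0_lt_d aleph0_lt_r)
    · rwa [Cardinal.mk_finset_of_infinite]
  obtain ⟨A, hA⟩ := low (lt_min_iff.1 hcard).1 (lt_min_iff.1 hcard).2
    fun F a => max (p₁ F a) (p₂ F a)
  let A₁ : Set ℕ := {n | ∃ a ≤ n, Icc a n ⊆ A ∧ n ∈ S₁ a}
  let A₂ : Set ℕ := {n | ∃ a ≤ n, Icc a n ⊆ Aᶜ ∧ n ∈ S₂ a}
  have v₁ : (fun n => (e₁ n).1) '' A₁ ⊆ U₁ := by rintro _ ⟨n, -, rfl⟩; exact (e₁ n).2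
  have v₂ : (fun n => (e₂ n).1) '' A₂ ⊆ U₂ := by rintro _ ⟨n, -, rfl⟩; exact (e₂ n).2
  refine ⟨_, v₁, _, v₂, omega_of h₁ v₁ fun F hF => ?_, omega_of h₂ v₂ fun F hF => ?_, ?_⟩
  · obtain ⟨a, -, ha⟩ := (hA hF.toFinset 0).1
    obtain ⟨⟨q1, q2⟩, q3⟩ := hp₁ hF.toFinset a
    exact ⟨_, ⟨_, ⟨a, q3, (Icc_subset_Icc_right (le_max_left _ _)).trans ha, q1⟩, rfl⟩,
      by simpa using q2⟩
  · obtain ⟨a, -, ha⟩ := (hA hF.toFinset 0).2
    obtain ⟨⟨q1, q2⟩, q3⟩ := hp₂ hF.toFinset a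
    exact ⟨_, ⟨_, ⟨a, q3, (Icc_subset_Icc_right (le_max_right _ _)).trans ha, q1⟩, rfl⟩,
      by simpa using q2⟩
  · refine lt_of_le_of_lt (ncard_le_ncard (t := {γ₁, γ₂}) ?_ (toFinite _))
      (lt_of_le_of_lt (ncard_insert_le _ _) (by simp))
    rintro _ ⟨u, v, ⟨n, ⟨a, an, ha, q1, q2⟩, hu⟩, ⟨m, ⟨b, bm, hb, r1, r2⟩, hv⟩, rfl⟩
    obtain rfl : u = e₁ n := Subtype.ext hu.symm
    obtain rfl : v = e₂ m := Subtype.ext hv.symm
    have n1 : n ∈ A := ha ⟨an, le_rfl⟩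
    have m1 : m ∉ A := hb ⟨bm, le_rfl⟩
    by_cases hm : m < a
    · right; rw [q2 m hm, r1]; rfl
    · left
      rw [r2 n ?_, q1]
      by_contra hn
      rcases le_total m n with h | h
      · exact m1 (ha ⟨not_lt.1 hm, h⟩)
      · exact hb ⟨not_lt.1 hn, h⟩ n1
end

set_option maxHeartbeats 400000 in
theorem big : ∃ X : Set ℝ, ¬ Pol X ∧ #X ≤ min dNum rNum := by
  classical
  obtain ⟨ι, φ, hι, hφ⟩ := high
  let code : ι ⊕ ℕ → ℕ → Bool := fun t k => match t with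
    | Sum.inl i => decide (φ i k.unpair.1 ≤ k.unpair.2)
    | Sum.inr j => decide (j ≠ k.unpair.1)
  let H := cantorSetHomeomorphNatToBool
  let E : ι ⊕ ℕ → ℝ := fun t => (H.symm (code t)).1
  have hsub : range E ⊆ cantorSet := by rintro _ ⟨t, rfl⟩; exact (H.symm (code t)).2
  refine ⟨range E, fun hP => ?_, Cardinal.mk_range_le.trans ?_⟩
  swap
  · rw [Cardinal.mk_sum, Cardinal.lift_id, Cardinal.lift_id, hι, Cardinal.mk_nat,
      Cardinal.add_eq_left (lt_min aleph0_lt_d aleph0_lt_r).le (lt_min aleph0_lt_d aleph0_lt_r).le]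
  let Uc : ℕ → Set (range E) := fun k => {x | H (inclusion hsub x) k = true}
  let pt : ι ⊕ ℕ → range E := fun t => ⟨E t, t, rfl⟩
  have hpt : ∀ t k, pt t ∈ Uc k ↔ code t k = true := by
    intro t k
    have : inclusion hsub (pt t) = H.symm (code t) := rfl
    simp only [Uc, mem_setOf_eq, this, Homeomorph.apply_symm_apply]
  have hF : ∀ F : Set (range E), F.Finite → ∃ u ∈ range Uc, F ⊆ u := by
    intro F hF
    have h1 : ∀ x : range E, ∃ t, pt t = x := fun ⟨_, t, rfl⟩ => ⟨t, rfl⟩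
    choose τ hτ using h1
    obtain ⟨a, ha⟩ := (hF.image fun x => Sum.elim (fun _ => 0) (· + 1) (τ x)).bddAbove
    obtain ⟨b, hb⟩ := (hF.image fun x => Sum.elim (fun i => φ i a) (fun _ => 0) (τ x)).bddAbove
    refine ⟨_, ⟨Nat.pair a b, rfl⟩, fun x hx => ?_⟩
    have q1 := ha ⟨x, hx, rfl⟩
    have q2 := hb ⟨x, hx, rfl⟩
    rw [← hτ x, hpt]
    rcases h : τ x with i | j
    · simpa [code, h] using q2
    · simp only [h, Sum.elim_inr] at q1
      simp only [code, Nat.unpair_pair, decide_eq_true_eq]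
      omega
  have hU : Omega (range Uc) := by
    refine ⟨?_, eq_univ_of_forall fun x => ?_, ?_, hF⟩
    · rintro _ ⟨k, rfl⟩
      exact (isOpen_discrete {true}).preimage (f := fun x => H (inclusion hsub x) k)
        ((continuous_apply k).comp (H.continuous.comp (continuous_inclusion hsub)))
    · obtain ⟨u, hu, hx⟩ := hF {x} (finite_singleton x)
      exact ⟨u, hu, hx rfl⟩
    · rintro ⟨k, hk⟩
      have : pt (Sum.inr k.unpair.1) ∈ Uc k := hk ▸ mem_univ _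
      simp [hpt, code] at this
  clear_value pt Uc
  choose idx hidx using fun u : range Uc => u.2
  let l : range Uc → ℕ := fun u => (idx u).unpair.1
  let r : range Uc → ℕ := fun u => max (idx u).unpair.1 (idx u).unpair.2
  have lr : ∀ u, l u ≤ r u := fun u => le_max_left _ _
  obtain ⟨V₁, s₁, V₂, s₂, o₁, o₂, hc⟩ := hP 3 (by norm_num) _ _ hU hU
    fun u v => if r u < l v then 0 else if r v < l u then 1 else 2
  have key : ∀ V ⊆ range Uc, Omega V → ∀ (t : ι ⊕ ℕ) N, ∃ u : range Uc, u.1 ∈ V ∧ N ≤ l u ∧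
      code t (idx u) = true := by
    intro V hV hO t N
    obtain ⟨u, hu, h⟩ := hO.2.2.2 (insert (pt t) ((fun j => pt (Sum.inr j)) '' Iio N))
      (((finite_Iio N).image _).insert _)
    have e : Uc (idx ⟨u, hV hu⟩) = u := hidx _
    refine ⟨⟨u, hV hu⟩, hu, ?_, ?_⟩
    · by_contra hn
      have h5 : pt (Sum.inr (l ⟨u, hV hu⟩)) ∈ u :=
        h (mem_insert_of_mem _ (mem_image_of_mem (fun j => pt (Sum.inr j)) (not_le.1 hn)))
      have := (hpt _ _).1 (e.symm.subset h5)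
      simp [code, l] at this
    · rw [← hpt, e]
      exact h (Or.inl rfl)
  have h2 : ∀ u v : range Uc, u.1 ∈ V₁ → v.1 ∈ V₂ → r u < l v ∨ r v < l u := by
    intro u v hu hv
    by_contra hn
    push Not at hn
    obtain ⟨v', hv', q, -⟩ := key V₂ s₂ o₂ (Sum.inr 0) (r u + 1)
    obtain ⟨u', hu', q', -⟩ := key V₁ s₁ o₁ (Sum.inr 0) (r v + 1)
    refine absurd hc (not_lt.2 (le_of_eq ?_))
    rw [eq_comm, eq_univ_of_forall (s := {c | ∃ u v : range Uc, _}) ?_, ncard_univ]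
    · simp
    · intro c
      fin_cases c
      · exact ⟨u, v', hu, hv', by rw [if_pos (by omega)]; rfl⟩
      · have := lr v
        have := lr u'
        exact ⟨u', v, hu', hv, by rw [if_neg (by omega), if_pos (by omega)]; rfl⟩
      · exact ⟨u, v, hu, hv, by rw [if_neg (by omega), if_neg (by omega)]; rfl⟩
  have h3 : ∀ i (u : range Uc), code (Sum.inl i) (idx u) = true → φ i (l u) ≤ r u := by
    intro i u h
    simp only [code, decide_eq_true_eq] at h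
    exact h.trans (le_max_right _ _)
  obtain ⟨i, N, h | h⟩ := hφ {x | ∃ u : range Uc, u.1 ∈ V₁ ∧ l u ≤ x ∧ x ≤ r u}
  · obtain ⟨u, hu, q1, q2⟩ := key V₁ s₁ o₁ (Sum.inl i) N
    exact h _ q1 fun x hx => ⟨u, hu, hx.1, hx.2.trans (h3 i u q2)⟩
  · obtain ⟨v, hv, q1, q2⟩ := key V₂ s₂ o₂ (Sum.inl i) N
    refine h _ q1 fun x hx => ?_
    rintro ⟨u, hu, a1, a2⟩
    have := h3 i v q2
    have := hx.1
    have := hx.2
    rcases h2 u v hu hv with h | h <;> omega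

theorem result : nonPol = min dNum rNum ∧
    (nonS1 < min dNum rNum → ¬ ∀ X : Set ℝ, Pol X ↔ S1 X) := by
  obtain ⟨X, hX, hc⟩ := big
  constructor
  · refine le_antisymm ((csInf_le' (show #X ∈ {c | ∃ X : Set ℝ, ¬ Pol X ∧ #X = c} from
      ⟨X, hX, rfl⟩)).trans hc) (le_csInf ⟨_, X, hX, rfl⟩ ?_)
    rintro _ ⟨Y, hY, rfl⟩
    exact not_lt.1 fun h => hY (small h)
  · intro h1 h2
    obtain ⟨Y, hY, hc⟩ := csInf_mem (s := {c | ∃ X : Set ℝ, ¬ S1 X ∧ #X = c})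
      ⟨_, X, fun h => hX ((h2 X).2 h), rfl⟩
    exact hY ((h2 Y).1 (small (by rw [hc]; exact h1)))

end Pool.Agent.Results.MP_7b7e09_gt.NonP
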